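import Pool.Agent.Helper96.CT.Stmts3

/-!
# Row NC
-/

set_option autoImplicit false

namespace Pool.Agent.Helper22.CT

open SimpleGraph Pool.Agent.Helper96.CT

theorem exit_reach {W : Type} {T : SimpleGraph W} {S : Set W} {x : W} (hx : x ∉ S) :
    ∀ {w y : W} (_ : T.Walk w y), y = x → ∀ hw : w ∈ S, ∃ (u : W) (hu : u ∈ S) (v : W),
      T.Adj u v ∧ v ∉ S ∧ (T.induce S).Reachable ⟨w, hw⟩ ⟨u, hu⟩ := by
  intro w y p
  induction p with
  | nil =>
    intro h hw
    exact absurd (h ▸ hw) hx
  | @cons a b c h p ih =>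
    intro hy hw
    by_cases hb : b ∈ S
    · obtain ⟨u, hu, v, h1, h2, h3⟩ := ih hy hb
      have h4 : (T.induce S).Adj ⟨a, hw⟩ ⟨b, hb⟩ := h
      exact ⟨u, hu, v, h1, h2, h4.reachable.trans h3⟩
    · exact ⟨a, hw, b, h, hb, Reachable.refl _⟩

theorem conn_of_exit {W : Type} {T : SimpleGraph W} (hT : T.Connected) {S : Set W} {x : W}
    (hx : x ∉ S) (hne : S.Nonempty)
    (huq : ∀ u v u' v', T.Adj u v → T.Adj u' v' → u ∈ S → v ∉ S → u' ∈ S → v' ∉ S → u = u') :
    (T.induce S).Connected := by
  haveI : Nonempty S := hne.to_subtype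
  refine Connected.mk fun a b => ?_
  obtain ⟨p⟩ := hT.preconnected a.1 x
  obtain ⟨q⟩ := hT.preconnected b.1 x
  obtain ⟨u, hu1, v, h1, h2, h3⟩ := exit_reach hx p rfl a.2
  obtain ⟨u', hu2, v', h4, h5, h6⟩ := exit_reach hx q rfl b.2
  have := huq u v u' v' h1 h4 hu1 h2 hu2 h5
  subst this
  exact h3.trans h6.symm

theorem card_of_exit {W : Type} {T : SimpleGraph W} (hT : T.Connected) {a : ℕ} {x : W}
    (hB : ∀ B : Finset W, x ∉ B → (T.induce (B : Set W)).Connected → B.card ≤ a)
    {S : Finset W} (hx : x ∉ S)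
    (huq : ∀ u v u' v', T.Adj u v → T.Adj u' v' → u ∈ S → v ∉ S → u' ∈ S → v' ∉ S → u = u') :
    S.card ≤ a := by
  rcases S.eq_empty_or_nonempty with h | h
  · rw [h]
    simp
  · refine hB S hx (conn_of_exit hT (x := x) (by simpa using hx) (by simpa using h) ?_)
    intro u v u' v' h1 h2 h3 h4 h5 h6
    exact huq u v u' v' h1 h2 (by simpa using h3) (by simpa using h4) (by simpa using h5)
      (by simpa using h6)

/-- row NC -/
theorem st_NC : ST_NC := by
  classical
  intro W V _ T F a c x hT hcard hB hch hcon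
  obtain ⟨f⟩ := hcon
  obtain ⟨hc1, hc2, hc3⟩ := hch
  have hadj : ∀ u v, T.Adj u v → F.Adj (f u) (f v) := fun u v h => f.toHom.map_adj h
  have hinj : ∀ u v, f u = f v → u = v := fun u v h => f.injective h
  set i := c (f x) with hi
  have h1 : (Finset.univ.filter fun w => c (f w) = i).card ≤ a := by
    have h2 := hc1 i ((Finset.univ.filter fun w => c (f w) = i).image fun w => f w) (by
      intro y hy
      obtain ⟨w, hw, rfl⟩ := Finset.mem_image.1 hy
      exact (Finset.mem_filter.1 hw).2)
    rwa [Finset.card_image_of_injective _ (fun u v h => hinj u v h)] at h2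
  have h2 : (Finset.univ.filter fun w => i < c (f w)).card ≤ a := by
    refine card_of_exit hT hB (by simp [hi]) ?_
    intro u v u' v' e1 e2 m1 m2 m3 m4
    simp only [Finset.mem_filter, Finset.mem_univ, true_and, not_lt] at m1 m2 m3 m4
    have a1 := hadj v u e1.symm
    have a2 := hadj v' u' e2.symm
    have b1 := hc2 _ _ a1
    have b2 := hc2 _ _ a2
    exact hinj _ _ (hc3 _ _ _ _ a1 a2 (by omega) (by omega) (by omega)).2
  have h3 : (Finset.univ.filter fun w => c (f w) < i).card ≤ a := by
    refine card_of_exit hT hB (by simp [hi]) ?_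
    intro u v u' v' e1 e2 m1 m2 m3 m4
    simp only [Finset.mem_filter, Finset.mem_univ, true_and, not_lt] at m1 m2 m3 m4
    have a1 := hadj u v e1
    have a2 := hadj u' v' e2
    have b1 := hc2 _ _ a1
    have b2 := hc2 _ _ a2
    exact hinj _ _ (hc3 _ _ _ _ a1 a2 (by omega) (by omega) (by omega)).1
  have h4 : (Finset.univ : Finset W) ⊆ (Finset.univ.filter fun w => c (f w) = i) ∪
      ((Finset.univ.filter fun w => i < c (f w)) ∪ (Finset.univ.filter fun w => c (f w) < i)) := by
    intro w _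
    simp only [Finset.mem_union, Finset.mem_filter, Finset.mem_univ, true_and]
    omega
  have h5 := (Finset.card_le_card h4).trans ((Finset.card_union_le _ _).trans
    (Nat.add_le_add_left (Finset.card_union_le _ _) _))
  rw [Finset.card_univ] at h5
  omega

end Pool.Agent.Helper22.CT
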